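import Pool.Agent.MP_7b724e_an.Mg.Power

set_option autoImplicit false

open scoped ComplexOrder

namespace Pool.Agent.Results.MP_7b724e_an.Q1

/-- Q1: for `-2 < q < 0` and positive definite `A, B`,
`Tr (A+B)^q ≤ Tr A^q + Tr B^q + (2^q - 2) Tr (A^(1/2) B A^(1/2))^(q/2)`;
powers are taken with the continuous functional calculus `cfc`. -/
theorem result :
    ∀ (q : ℝ), -2 < q → q < 0 →
      ∀ (n : ℕ) (A B : Matrix (Fin n) (Fin n) ℂ), A.PosDef → B.PosDef →
        (cfc (fun x : ℝ => x ^ q) (A + B)).trace.re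
          ≤ (cfc (fun x : ℝ => x ^ q) A).trace.re + (cfc (fun x : ℝ => x ^ q) B).trace.re
            + (2 ^ q - 2) * (cfc (fun x : ℝ => x ^ (q / 2))
              (cfc (fun x : ℝ => x ^ (1 / 2 : ℝ)) A * B
                * cfc (fun x : ℝ => x ^ (1 / 2 : ℝ)) A)).trace.re :=
  fun _ _ hq _ _ _ hA hB => Pool.Agent.MP_7b724e_an.ineq_neg hA hB hq

end Pool.Agent.Results.MP_7b724e_an.Q1
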